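import Mathlib

set_option autoImplicit false

/-!
# Fair portfolios for scheduling on unrelated machines

For scheduling with unrelated machines there is no constant `α` such that `α`-approximate
portfolios for all ordered norms of size `O(log d)` always exist.
-/

namespace Pool.Agent.Results.MP_61ce55_lc.NoLogPortfolio

open Finset Filter

/-- The load vector of the schedule `s` (job `j` is assigned to machine `s j`): machine `i` has
load `∑ p i j`, the sum over the jobs `j` assigned to `i`. -/
noncomputable def load {d n : ℕ} (p : Fin d → Fin n → ℝ) (s : Fin n → Fin d) : Fin d → ℝ :=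
  fun i => ∑ j with s j = i, p i j

/-- The coordinates of `x` sorted in non-increasing order. -/
noncomputable def sortedDesc {d : ℕ} (x : Fin d → ℝ) : Fin d → ℝ :=
  fun k => x (Tuple.sort x (Fin.rev k))

/-- `w` is a nonzero weight vector with `w 0 ≥ w 1 ≥ ... ≥ 0`. -/
def IsOrderedWeight {d : ℕ} (w : Fin d → ℝ) : Prop :=
  Antitone w ∧ (∀ k, 0 ≤ w k) ∧ w ≠ 0

/-- The ordered norm with weights `w` (on vectors with nonnegative coordinates). -/
noncomputable def orderedNorm {d : ℕ} (w x : Fin d → ℝ) : ℝ := ∑ k, w k * sortedDesc x k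

/-- `X` is an `α`-approximate portfolio for the class of all ordered norms: `X` is a set of load
vectors of schedules, and for every ordered norm the best element of `X` is at most `α` times as
expensive as every schedule. -/
def IsPortfolio {d n : ℕ} (α : ℝ) (p : Fin d → Fin n → ℝ) (X : Finset (Fin d → ℝ)) : Prop :=
  (∀ x ∈ X, ∃ s : Fin n → Fin d, load p s = x) ∧
  ∀ w : Fin d → ℝ, IsOrderedWeight w →
    ∃ x ∈ X, ∀ s : Fin n → Fin d, orderedNorm w x ≤ α * orderedNorm w (load p s)

/-! ### Top-`k` sums -/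

/-- sum of the `k` largest coordinates -/
noncomputable def topk {d : ℕ} (x : Fin d → ℝ) (k : ℕ) : ℝ :=
  ∑ i ∈ univ.filter (fun i : Fin d => (i : ℕ) < k), sortedDesc x i

theorem antitone_sortedDesc {d : ℕ} (x : Fin d → ℝ) : Antitone (sortedDesc x) := by
  intro a b hab
  exact Tuple.monotone_sort x (Fin.rev_le_rev.mpr hab)

theorem sum_sortedDesc {d : ℕ} (x : Fin d → ℝ) (f : ℝ → ℝ) :
    ∑ i, f (sortedDesc x i) = ∑ i, f (x i) := by
  have h := Equiv.sum_comp (Fin.revPerm.trans (Tuple.sort x)) (fun i => f (x i))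
  simpa [sortedDesc] using h

theorem topk_eq {d : ℕ} (x : Fin d → ℝ) (k : ℕ) :
    ∃ S : Finset (Fin d), S.card ≤ k ∧ topk x k = ∑ i ∈ S, x i := by
  classical
  refine ⟨(univ.filter (fun i : Fin d => (i : ℕ) < k)).map
    (Fin.revPerm.trans (Tuple.sort x)).toEmbedding, ?_, ?_⟩
  · rw [card_map]
    calc (univ.filter (fun i : Fin d => (i : ℕ) < k)).card
        = ((univ.filter (fun i : Fin d => (i : ℕ) < k)).image (fun i : Fin d => (i : ℕ))).card := by
          rw [card_image_of_injective _ Fin.val_injective]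
      _ ≤ (range k).card := by
          apply card_le_card
          intro a ha
          simp only [mem_image, mem_filter, mem_univ, true_and] at ha
          obtain ⟨b, hb, rfl⟩ := ha
          exact mem_range.mpr hb
      _ = k := card_range k
  · rw [sum_map]
    rfl

theorem le_topk {d : ℕ} (x : Fin d → ℝ) (hx : ∀ i, 0 ≤ x i) (k : ℕ) (S : Finset (Fin d))
    (hS : S.card ≤ k) : ∑ i ∈ S, x i ≤ topk x k := by
  classical
  rcases le_or_gt d k with hdk | hkd
  · have h1 : topk x k = ∑ i, x i := by
      unfold topk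
      rw [filter_true_of_mem (fun i _ => lt_of_lt_of_le i.isLt hdk)]
      exact sum_sortedDesc x (fun t => t)
    rw [h1]
    exact sum_le_univ_sum_of_nonneg hx
  · rcases Nat.eq_zero_or_pos k with hk | hk
    · subst hk
      have : S = ∅ := card_eq_zero.mp (Nat.le_zero.mp hS)
      subst this
      simp [topk]
    · set t : ℝ := sortedDesc x ⟨k - 1, by omega⟩ with ht
      have ht0 : 0 ≤ t := hx _
      have hcard : ((univ.filter (fun i : Fin d => (i : ℕ) < k)).card : ℝ) = k := by
        have : (univ.filter (fun i : Fin d => (i : ℕ) < k)).card = k := by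
          have h2 : (univ.filter (fun i : Fin d => (i : ℕ) < k)) =
              (univ : Finset (Fin k)).map (Fin.castLEEmb hkd.le) := by
            ext i
            simp only [mem_filter, mem_univ, true_and, Finset.mem_map, Fin.castLEEmb_apply]
            constructor
            · intro h
              exact ⟨⟨i, h⟩, by ext; rfl⟩
            · rintro ⟨a, rfl⟩
              exact a.isLt
          rw [h2, card_map, card_univ, Fintype.card_fin]
        exact_mod_cast this
      calc ∑ i ∈ S, x i ≤ ∑ i ∈ S, (t + max (x i - t) 0) := by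
            apply sum_le_sum
            intro i _
            have := le_max_left (x i - t) 0
            linarith
        _ = S.card * t + ∑ i ∈ S, max (x i - t) 0 := by
            rw [sum_add_distrib, sum_const, nsmul_eq_mul]
        _ ≤ k * t + ∑ i, max (x i - t) 0 := by
            apply add_le_add
            · exact mul_le_mul_of_nonneg_right (by exact_mod_cast hS) ht0
            · exact sum_le_univ_sum_of_nonneg (fun i => le_max_right _ _)
        _ = k * t + ∑ i, max (sortedDesc x i - t) 0 := by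
            rw [sum_sortedDesc x (fun u => max (u - t) 0)]
        _ = k * t + ∑ i ∈ univ.filter (fun i : Fin d => (i : ℕ) < k), (sortedDesc x i - t) := by
            congr 1
            rw [← sum_filter_add_sum_filter_not univ (fun i : Fin d => (i : ℕ) < k)
              (fun i => max (sortedDesc x i - t) 0)]
            have h2 : ∑ i ∈ univ.filter (fun i : Fin d => ¬ (i : ℕ) < k), max (sortedDesc x i - t) 0 = 0 := by
              apply sum_eq_zero
              intro i hi
              simp only [mem_filter, mem_univ, true_and, not_lt] at hi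
              have : sortedDesc x i ≤ t := antitone_sortedDesc x (by
                rw [Fin.le_def]; simp; omega)
              exact max_eq_right (by linarith)
            rw [h2, add_zero]
            apply sum_congr rfl
            intro i hi
            simp only [mem_filter, mem_univ, true_and] at hi
            have : t ≤ sortedDesc x i := antitone_sortedDesc x (by
              rw [Fin.le_def]; simp; omega)
            exact max_eq_left (by linarith)
        _ = topk x k := by
            rw [sum_sub_distrib, sum_const, nsmul_eq_mul, hcard]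
            unfold topk
            ring

/-- weights given as a combination of indicators of initial segments -/
noncomputable def comb {d m : ℕ} (a : Fin m → ℝ) (N : Fin m → ℕ) : Fin d → ℝ :=
  fun i => ∑ l, a l * (if (i : ℕ) < N l then 1 else 0)

theorem orderedNorm_comb {d m : ℕ} (a : Fin m → ℝ) (N : Fin m → ℕ) (x : Fin d → ℝ) :
    orderedNorm (comb a N) x = ∑ l, a l * topk x (N l) := by
  unfold orderedNorm comb topk
  calc ∑ k : Fin d, (∑ l, a l * (if (k : ℕ) < N l then 1 else 0)) * sortedDesc x k
      = ∑ k : Fin d, ∑ l, a l * (if (k : ℕ) < N l then sortedDesc x k else 0) := by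
        apply sum_congr rfl
        intro k _
        rw [sum_mul]
        apply sum_congr rfl
        intro l _
        split_ifs <;> ring
    _ = ∑ l, ∑ k : Fin d, a l * (if (k : ℕ) < N l then sortedDesc x k else 0) := sum_comm
    _ = _ := by
        apply sum_congr rfl
        intro l _
        rw [← mul_sum, sum_filter]

theorem isOrderedWeight_comb {d m : ℕ} (hd : 0 < d) (a : Fin m → ℝ) (N : Fin m → ℕ)
    (ha : ∀ l, 0 < a l) (hN : ∀ l, 0 < N l) (hm : 0 < m) :
    IsOrderedWeight (comb a N : Fin d → ℝ) := by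
  refine ⟨?_, ?_, ?_⟩
  · intro i j hij
    apply sum_le_sum
    intro l _
    apply mul_le_mul_of_nonneg_left _ (ha l).le
    have : (i : ℕ) ≤ j := hij
    split_ifs with h1 h2
    · exact le_refl _
    · omega
    · norm_num
    · exact le_refl _
  · intro k
    apply sum_nonneg
    intro l _
    apply mul_nonneg (ha l).le
    split_ifs <;> norm_num
  · intro h
    have h1 := congrFun h ⟨0, hd⟩
    have h2 : 0 < ∑ l, a l * (if ((⟨0, hd⟩ : Fin d) : ℕ) < N l then (1 : ℝ) else 0) := by
      apply sum_pos
      · intro l _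
        simp only [hN l, if_true]
        simpa using ha l
      · exact ⟨⟨0, hm⟩, mem_univ _⟩
    unfold comb at h1
    rw [h1] at h2
    simp at h2



theorem card_filter_lt {d k : ℕ} (h : k ≤ d) :
    (univ.filter (fun i : Fin d => (i : ℕ) < k)).card = k := by
  have h2 : (univ.filter (fun i : Fin d => (i : ℕ) < k)) =
      (univ : Finset (Fin k)).map (Fin.castLEEmb h) := by
    ext i
    simp only [mem_filter, mem_univ, true_and, Finset.mem_map, Fin.castLEEmb_apply]
    constructor
    · intro h
      exact ⟨⟨i, h⟩, by ext; rfl⟩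
    · rintro ⟨a, rfl⟩
      exact a.isLt
  rw [h2, card_map, card_univ, Fintype.card_fin]

/-! ### Sums of loads -/

theorem sum_load {d n : ℕ} (p : Fin d → Fin n → ℝ) (s : Fin n → Fin d) (S : Finset (Fin d)) :
    ∑ i ∈ S, load p s i = ∑ j ∈ univ.filter (fun j => s j ∈ S), p (s j) j := by
  classical
  unfold load
  simp_rw [sum_filter]
  rw [sum_comm]
  apply sum_congr rfl
  intro j _
  rw [Finset.sum_ite_eq S (s j) (fun i => p i j)]

theorem load_nonneg {d n : ℕ} (p : Fin d → Fin n → ℝ) (hp : ∀ i j, 0 ≤ p i j)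
    (s : Fin n → Fin d) (i : Fin d) : 0 ≤ load p s i :=
  sum_nonneg (fun _ _ => hp _ _)

theorem lower_load {d n : ℕ} (p : Fin d → Fin n → ℝ) (hp : ∀ i j, 0 ≤ p i j)
    (s : Fin n → Fin d) (S : Finset (Fin d)) (U : Finset (Fin n)) (c : ℝ)
    (h1 : ∀ j ∈ U, s j ∈ S) (h2 : ∀ j ∈ U, c ≤ p (s j) j) :
    U.card * c ≤ ∑ i ∈ S, load p s i := by
  classical
  rw [sum_load]
  calc (U.card : ℝ) * c = ∑ j ∈ U, c := by rw [sum_const, nsmul_eq_mul]
    _ ≤ ∑ j ∈ U, p (s j) j := sum_le_sum h2
    _ ≤ _ := by
      apply sum_le_sum_of_subset_of_nonneg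
      · intro j hj
        simp only [mem_filter, mem_univ, true_and]
        exact h1 j hj
      · intro j _ _
        exact hp _ _

/-! ### The instance -/

/-- machine names: block, group, and either the shared machine or the machine of one job -/
abbrev Mach (A m : ℕ) := Fin m × Fin (A ^ (6 * m)) × Option (Fin (A ^ 2))

/-- job names: block, group, index in the group -/
abbrev Job (A m : ℕ) := Fin m × Fin (A ^ (6 * m)) × Fin (A ^ 2)

section Inst

variable {A m d n : ℕ} (f : Mach A m ↪ Fin d) (e : Fin n ≃ Job A m)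

/-- the job `j` is a real job (the other ones have zero processing times) -/
def IsReal (j : Fin n) : Prop := ((e j).2.1 : ℕ) < A ^ (6 * ((e j).1 : ℕ))

/-- shared machine of the group of job `j` -/
def shared (j : Fin n) : Fin d := f ((e j).1, (e j).2.1, none)

/-- own machine of job `j` -/
def own (j : Fin n) : Fin d := f ((e j).1, (e j).2.1, some (e j).2.2)

open Classical in
/-- processing times -/
noncomputable def ptime (i : Fin d) (j : Fin n) : ℝ :=
  if IsReal e j then
    (if i = shared f e j then ((A : ℝ) ^ (3 * ((e j).1 : ℕ)))⁻¹ / A ^ 2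
    else if i = own f e j then ((A : ℝ) ^ (3 * ((e j).1 : ℕ)))⁻¹ / A else 1)
  else 0

theorem ptime_nonneg (i : Fin d) (j : Fin n) : 0 ≤ ptime f e i j := by
  unfold ptime
  split_ifs <;> positivity

theorem shared_ne_own (j : Fin n) : own f e j ≠ shared f e j := by
  unfold shared own
  intro h
  have := f.injective h
  simp at this

theorem ptime_shared (j : Fin n) (h : IsReal e j) :
    ptime f e (shared f e j) j = ((A : ℝ) ^ (3 * ((e j).1 : ℕ)))⁻¹ / A ^ 2 := by
  simp [ptime, h]

theorem ptime_own (j : Fin n) (h : IsReal e j) :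
    ptime f e (own f e j) j = ((A : ℝ) ^ (3 * ((e j).1 : ℕ)))⁻¹ / A := by
  simp [ptime, h, shared_ne_own]

theorem ptime_other (hA : 1 ≤ A) (i : Fin d) (j : Fin n) (h : IsReal e j)
    (h1 : i ≠ shared f e j) :
    ((A : ℝ) ^ (3 * ((e j).1 : ℕ)))⁻¹ / A ≤ ptime f e i j := by
  have hA' : (1 : ℝ) ≤ A := by exact_mod_cast hA
  unfold ptime
  rw [if_pos h, if_neg h1]
  split_ifs with h2
  · exact le_refl _
  · rw [div_le_one (by linarith)]
    have h3 : (1 : ℝ) ≤ (A : ℝ) ^ (3 * ((e j).1 : ℕ)) := one_le_pow₀ hA'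
    calc ((A : ℝ) ^ (3 * ((e j).1 : ℕ)))⁻¹ ≤ 1 := inv_le_one_of_one_le₀ h3
      _ ≤ A := hA'

open Classical in
/-- real jobs of block `b` -/
noncomputable def R (b : Fin m) : Finset (Fin n) :=
  univ.filter (fun j => (e j).1 = b ∧ IsReal e j)

theorem mem_R (b : Fin m) (j : Fin n) : j ∈ R e b ↔ (e j).1 = b ∧ IsReal e j := by
  simp [R]

theorem card_R (hA : 1 ≤ A) (b : Fin m) : (R e b).card = A ^ (6 * (b : ℕ)) * A ^ 2 := by
  classical
  have h : R e b = (({b} : Finset (Fin m)) ×ˢ
      ((univ.filter (fun g : Fin (A ^ (6 * m)) => (g : ℕ) < A ^ (6 * (b : ℕ)))) ×ˢ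
        (univ : Finset (Fin (A ^ 2))))).map e.symm.toEmbedding := by
    ext j
    rw [mem_R]
    simp only [IsReal, mem_filter, mem_univ, true_and, Finset.mem_map, mem_product,
      mem_singleton, Equiv.coe_toEmbedding, and_true]
    constructor
    · rintro ⟨h1, h2⟩
      exact ⟨e j, ⟨h1, by rw [← h1]; exact h2⟩, e.symm_apply_apply j⟩
    · rintro ⟨x, ⟨h1, h2⟩, rfl⟩
      rw [e.apply_symm_apply]
      exact ⟨h1, by rw [h1]; exact h2⟩
  rw [h, card_map, card_product, card_product, card_singleton, card_univ, Fintype.card_fin,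
    card_filter_lt (Nat.pow_le_pow_right hA (by have := b.isLt; omega)), one_mul]

/-- the schedule in which block `b` uses the shared machines iff `τ b` -/
def sched (τ : Fin m → Bool) (j : Fin n) : Fin d :=
  if τ (e j).1 then shared f e j else own f e j

open Classical in
/-- jobs of block `b` which the schedule `s` puts on their shared machine -/
noncomputable def conc (s : Fin n → Fin d) (b : Fin m) : Finset (Fin n) :=
  (R e b).filter (fun j => s j = shared f e j)

theorem mem_conc (s : Fin n → Fin d) (b : Fin m) (j : Fin n) :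
    j ∈ conc f e s b ↔ ((e j).1 = b ∧ IsReal e j) ∧ s j = shared f e j := by
  simp [conc, mem_R]

open Classical in
/-- the signature of a schedule -/
noncomputable def sig (s : Fin n → Fin d) (b : Fin m) : Bool :=
  decide ((R e b).card ≤ 2 * (conc f e s b).card)

/-- coefficient of the `b`-th part of the weight vector -/
noncomputable def coef (A : ℕ) {m : ℕ} (τ : Fin m → Bool) (b : Fin m) : ℝ :=
  (if τ b then 1 else (A : ℝ)) / (A : ℝ) ^ (3 * (b : ℕ))

/-- length of the `b`-th initial segment -/
def seg (A : ℕ) {m : ℕ} (τ : Fin m → Bool) (b : Fin m) : ℕ :=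
  if τ b then A ^ (6 * (b : ℕ)) * A ^ 2 else A ^ (6 * (b : ℕ))

theorem coef_pos (hA : 1 ≤ A) (τ : Fin m → Bool) (b : Fin m) : 0 < coef A τ b := by
  have : (0 : ℝ) < A := by exact_mod_cast hA
  unfold coef
  split_ifs <;> positivity

theorem seg_pos (hA : 1 ≤ A) (τ : Fin m → Bool) (b : Fin m) : 0 < seg A τ b := by
  unfold seg
  split_ifs <;> positivity

/-- a schedule whose signature differs from `τ` is expensive for the weights of `τ` -/
theorem expensive (hA : 1 ≤ A) (τ : Fin m → Bool) (s : Fin n → Fin d) (h : sig f e s ≠ τ) :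
    (A : ℝ) / 2 ≤ orderedNorm (comb (coef A τ) (seg A τ)) (load (ptime f e) s) := by
  classical
  have hA0 : (0 : ℝ) < A := by exact_mod_cast hA
  have hx := load_nonneg (ptime f e) (ptime_nonneg f e) s
  obtain ⟨b, hb⟩ : ∃ b, sig f e s b ≠ τ b := by
    by_contra hcon
    push Not at hcon
    exact h (funext hcon)
  rw [orderedNorm_comb]
  have hterm : ∀ l, 0 ≤ coef A τ l * topk (load (ptime f e) s) (seg A τ l) := by
    intro l
    apply mul_nonneg (coef_pos hA τ l).le
    have := le_topk (load (ptime f e) s) hx (seg A τ l) ∅ (by simp)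
    simpa using this
  refine le_trans ?_ (single_le_sum (fun l _ => hterm l) (mem_univ b))
  have hpow : (0 : ℝ) < (A : ℝ) ^ (3 * (b : ℕ)) := by positivity
  have h6 : ((A : ℝ) ^ (6 * (b : ℕ))) = (A : ℝ) ^ (3 * (b : ℕ)) * (A : ℝ) ^ (3 * (b : ℕ)) := by
    rw [← pow_add]; congr 1; ring
  cases hτ : τ b with
  | false =>
    have hs : sig f e s b = true := by
      cases h' : sig f e s b with
      | false => rw [h', hτ] at hb; exact absurd rfl hb
      | true => rfl
    have hs' : (R e b).card ≤ 2 * (conc f e s b).card := by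
      simpa [sig] using hs
    rw [card_R e hA] at hs'
    have hs'' : ((A : ℝ) ^ (6 * (b : ℕ)) * A ^ 2) ≤ 2 * ((conc f e s b).card : ℝ) := by
      exact_mod_cast hs'
    have key := lower_load (ptime f e) (ptime_nonneg f e) s
      (((univ.filter (fun g : Fin (A ^ (6 * m)) => (g : ℕ) < A ^ (6 * (b : ℕ))))).image
        (fun g => f (b, g, none))) (conc f e s b)
      (((A : ℝ) ^ (3 * (b : ℕ)))⁻¹ / A ^ 2) ?_ ?_
    · have hle := le_topk (load (ptime f e) s) hx (seg A τ b)
        (((univ.filter (fun g : Fin (A ^ (6 * m)) => (g : ℕ) < A ^ (6 * (b : ℕ))))).image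
        (fun g => f (b, g, none))) ?_
      · have h3 := le_trans key hle
        have h4 : (A : ℝ) ^ (3 * (b : ℕ)) / 2 ≤ topk (load (ptime f e) s) (seg A τ b) := by
          refine le_trans ?_ h3
          have : (A : ℝ) ^ (3 * (b : ℕ)) / 2 =
              (((A : ℝ) ^ (6 * (b : ℕ)) * A ^ 2) / 2) * (((A : ℝ) ^ (3 * (b : ℕ)))⁻¹ / A ^ 2) := by
            rw [h6]; field_simp
          rw [this]
          apply mul_le_mul_of_nonneg_right _ (by positivity)
          linarith
        have h5 : coef A τ b = A / (A : ℝ) ^ (3 * (b : ℕ)) := by simp [coef, hτ]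
        rw [h5]
        calc (A : ℝ) / 2 = A / (A : ℝ) ^ (3 * (b : ℕ)) * ((A : ℝ) ^ (3 * (b : ℕ)) / 2) := by
              field_simp
          _ ≤ _ := mul_le_mul_of_nonneg_left h4 (by positivity)
      · refine le_trans card_image_le ?_
        rw [card_filter_lt (Nat.pow_le_pow_right hA (by have := b.isLt; omega))]
        simp [seg, hτ]
    · intro j hj
      obtain ⟨⟨h1, h2⟩, h3⟩ := (mem_conc f e s b j).mp hj
      rw [h3]
      simp only [mem_image, mem_filter, mem_univ, true_and, shared]
      exact ⟨(e j).2.1, by rw [← h1]; exact h2, by rw [h1]⟩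
    · intro j hj
      obtain ⟨⟨h1, h2⟩, h3⟩ := (mem_conc f e s b j).mp hj
      rw [h3, ptime_shared f e j h2, h1]
  | true =>
    have hs : sig f e s b = false := by
      cases h' : sig f e s b with
      | true => rw [h', hτ] at hb; exact absurd rfl hb
      | false => rfl
    have hs' : 2 * (conc f e s b).card < (R e b).card := by
      have : ¬ ((R e b).card ≤ 2 * (conc f e s b).card) := by simpa [sig] using hs
      omega
    set U := (R e b) \ (conc f e s b) with hU
    have hsub : conc f e s b ⊆ R e b := filter_subset _ _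
    have hUcard : U.card = (R e b).card - (conc f e s b).card := card_sdiff_of_subset hsub
    have hU2 : (R e b).card ≤ 2 * U.card := by omega
    have hU3 : U.card ≤ (R e b).card := by omega
    rw [card_R e hA] at hU2 hU3
    have hU2' : ((A : ℝ) ^ (6 * (b : ℕ)) * A ^ 2) ≤ 2 * (U.card : ℝ) := by exact_mod_cast hU2
    have key := lower_load (ptime f e) (ptime_nonneg f e) s (U.image s) U
      (((A : ℝ) ^ (3 * (b : ℕ)))⁻¹ / A) (fun j hj => mem_image_of_mem s hj) ?_
    · have hle := le_topk (load (ptime f e) s) hx (seg A τ b) (U.image s) ?_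
      · have h3 := le_trans key hle
        have h4 : (A : ℝ) * (A : ℝ) ^ (3 * (b : ℕ)) / 2 ≤
            topk (load (ptime f e) s) (seg A τ b) := by
          refine le_trans ?_ h3
          have : (A : ℝ) * (A : ℝ) ^ (3 * (b : ℕ)) / 2 =
              (((A : ℝ) ^ (6 * (b : ℕ)) * A ^ 2) / 2) * (((A : ℝ) ^ (3 * (b : ℕ)))⁻¹ / A) := by
            rw [h6]; field_simp
          rw [this]
          apply mul_le_mul_of_nonneg_right _ (by positivity)
          linarith
        have h5 : coef A τ b = 1 / (A : ℝ) ^ (3 * (b : ℕ)) := by simp [coef, hτ]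
        rw [h5]
        calc (A : ℝ) / 2 = 1 / (A : ℝ) ^ (3 * (b : ℕ)) * (A * (A : ℝ) ^ (3 * (b : ℕ)) / 2) := by
              field_simp
          _ ≤ _ := mul_le_mul_of_nonneg_left h4 (by positivity)
      · refine le_trans card_image_le ?_
        simpa [seg, hτ] using hU3
    · intro j hj
      rw [hU, Finset.mem_sdiff, mem_R, mem_conc] at hj
      obtain ⟨⟨h1, h2⟩, h3⟩ := hj
      have := ptime_other f e hA (s j) j h2 (fun h4 => h3 ⟨⟨h1, h2⟩, h4⟩)
      rw [h1] at this
      exact this


/-! ### The cheap schedules -/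

/-- contribution of block `b` to the total load of the machines in `S` -/
noncomputable def part (τ : Fin m → Bool) (S : Finset (Fin d)) (b : Fin m) : ℝ :=
  ∑ j ∈ (R e b).filter (fun j => sched f e τ j ∈ S), ptime f e (sched f e τ j) j

theorem ptime_sched (τ : Fin m → Bool) (j : Fin n) (b : Fin m) (h : j ∈ R e b) :
    ptime f e (sched f e τ j) j =
      if τ b then ((A : ℝ) ^ (3 * (b : ℕ)))⁻¹ / A ^ 2 else ((A : ℝ) ^ (3 * (b : ℕ)))⁻¹ / A := by
  obtain ⟨h1, h2⟩ := (mem_R e b j).mp h
  unfold sched
  rw [h1]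
  split_ifs with h3
  · rw [ptime_shared f e j h2, h1]
  · rw [ptime_own f e j h2, h1]

theorem sum_parts (τ : Fin m → Bool) (S : Finset (Fin d)) :
    ∑ i ∈ S, load (ptime f e) (sched f e τ) i = ∑ b, part f e τ S b := by
  classical
  rw [sum_load]
  unfold part
  have h0 : ∑ j ∈ univ.filter (fun j => sched f e τ j ∈ S), ptime f e (sched f e τ j) j =
      ∑ j ∈ univ.filter (fun j => sched f e τ j ∈ S ∧ IsReal e j),
        ptime f e (sched f e τ j) j := by
    symm
    apply sum_subset
    · intro j hj
      simp only [mem_filter, mem_univ, true_and] at hj ⊢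
      exact hj.1
    · intro j hj hj'
      simp only [mem_filter, mem_univ, true_and, not_and] at hj hj'
      simp [ptime, hj' hj]
  rw [h0, ← sum_fiberwise (univ.filter (fun j => sched f e τ j ∈ S ∧ IsReal e j))
    (fun j => (e j).1)]
  apply sum_congr rfl
  intro b _
  apply sum_congr _ (fun _ _ => rfl)
  ext j
  simp only [mem_filter, mem_univ, true_and, mem_R]
  tauto

theorem part_eq (τ : Fin m → Bool) (S : Finset (Fin d)) (b : Fin m) :
    part f e τ S b = ((R e b).filter (fun j => sched f e τ j ∈ S)).card *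
      (if τ b then ((A : ℝ) ^ (3 * (b : ℕ)))⁻¹ / A ^ 2 else ((A : ℝ) ^ (3 * (b : ℕ)))⁻¹ / A) := by
  unfold part
  rw [sum_congr rfl (fun j hj => ptime_sched f e τ j b (mem_filter.mp hj).1), sum_const,
    nsmul_eq_mul]

/-- bound by the total mass of the block -/
theorem part_le_total (hA : 1 ≤ A) (τ : Fin m → Bool) (S : Finset (Fin d)) (b : Fin m) :
    part f e τ S b ≤ (if τ b then 1 else (A : ℝ)) * (A : ℝ) ^ (3 * (b : ℕ)) := by
  classical
  have hA0 : (0 : ℝ) < A := by exact_mod_cast hA
  have hc : ((R e b).filter (fun j => sched f e τ j ∈ S)).card ≤ A ^ (6 * (b : ℕ)) * A ^ 2 := by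
    rw [← card_R e hA b]
    exact card_filter_le _ _
  have hc' : (((R e b).filter (fun j => sched f e τ j ∈ S)).card : ℝ) ≤
      (A : ℝ) ^ (3 * (b : ℕ)) * (A : ℝ) ^ (3 * (b : ℕ)) * A ^ 2 := by
    have h6 : ((A : ℝ) ^ (6 * (b : ℕ))) = (A : ℝ) ^ (3 * (b : ℕ)) * (A : ℝ) ^ (3 * (b : ℕ)) := by
      rw [← pow_add]; congr 1; ring
    rw [← h6]
    exact_mod_cast hc
  have hpow : (0 : ℝ) < (A : ℝ) ^ (3 * (b : ℕ)) := by positivity
  rw [part_eq]
  split_ifs with h
  · calc _ ≤ ((A : ℝ) ^ (3 * (b : ℕ)) * (A : ℝ) ^ (3 * (b : ℕ)) * A ^ 2) *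
          (((A : ℝ) ^ (3 * (b : ℕ)))⁻¹ / A ^ 2) := mul_le_mul_of_nonneg_right hc' (by positivity)
      _ = _ := by field_simp
  · calc _ ≤ ((A : ℝ) ^ (3 * (b : ℕ)) * (A : ℝ) ^ (3 * (b : ℕ)) * A ^ 2) *
          (((A : ℝ) ^ (3 * (b : ℕ)))⁻¹ / A) := mul_le_mul_of_nonneg_right hc' (by positivity)
      _ = _ := by field_simp

theorem fiber_card_le (τ : Fin m → Bool) (b : Fin m) (i : Fin d) :
    (((R e b).filter (fun j => sched f e τ j = i)).card) ≤ if τ b then A ^ 2 else 1 := by
  classical
  split_ifs with h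
  · calc ((R e b).filter (fun j => sched f e τ j = i)).card
        ≤ (univ : Finset (Fin (A ^ 2))).card := by
          apply card_le_card_of_injOn (fun j => (e j).2.2) (fun _ _ => mem_univ _)
          intro j hj j' hj' hjj
          rw [mem_coe, mem_filter, mem_R] at hj hj'
          obtain ⟨⟨h1, _⟩, h2⟩ := hj
          obtain ⟨⟨h1', _⟩, h2'⟩ := hj'
          unfold sched at h2 h2'
          rw [h1, if_pos h] at h2
          rw [h1', if_pos h] at h2'
          have h3 : shared f e j = shared f e j' := by rw [h2, h2']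
          have h4 := f.injective h3
          simp only [Prod.mk.injEq, and_true] at h4
          apply e.injective
          exact Prod.ext h4.1 (Prod.ext h4.2 hjj)
      _ = A ^ 2 := by simp
  · rw [card_le_one]
    intro j hj j' hj'
    rw [mem_filter, mem_R] at hj hj'
    obtain ⟨⟨h1, _⟩, h2⟩ := hj
    obtain ⟨⟨h1', _⟩, h2'⟩ := hj'
    unfold sched at h2 h2'
    rw [h1, if_neg h] at h2
    rw [h1', if_neg h] at h2'
    have h3 : own f e j = own f e j' := by rw [h2, h2']
    have h4 := f.injective h3
    simp only [Prod.mk.injEq, Option.some.injEq] at h4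
    apply e.injective
    exact Prod.ext h4.1 (Prod.ext h4.2.1 h4.2.2)

/-- bound by the number of machines times the maximal load -/
theorem part_le_card (hA : 1 ≤ A) (τ : Fin m → Bool) (S : Finset (Fin d)) (b : Fin m) :
    part f e τ S b ≤ S.card * ((if τ b then 1 else (A : ℝ)⁻¹) * ((A : ℝ) ^ (3 * (b : ℕ)))⁻¹) := by
  classical
  have hA0 : (0 : ℝ) < A := by exact_mod_cast hA
  have hc : ((R e b).filter (fun j => sched f e τ j ∈ S)).card ≤
      (if τ b then A ^ 2 else 1) * S.card := by
    apply card_le_mul_card_image_of_maps_to (f := sched f e τ)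
    · intro j hj
      exact (mem_filter.mp hj).2
    · intro i hi
      refine le_trans (card_le_card ?_) (fiber_card_le f e τ b i)
      intro j hj
      rw [mem_filter, mem_filter] at hj
      rw [mem_filter]
      exact ⟨hj.1.1, hj.2⟩
  have hc' : (((R e b).filter (fun j => sched f e τ j ∈ S)).card : ℝ) ≤
      (if τ b then (A : ℝ) ^ 2 else 1) * S.card := by
    split_ifs at hc ⊢
    · exact_mod_cast hc
    · exact_mod_cast hc
  have hpow : (0 : ℝ) < (A : ℝ) ^ (3 * (b : ℕ)) := by positivity
  rw [part_eq]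
  split_ifs at hc' ⊢ with h
  · calc _ ≤ ((A : ℝ) ^ 2 * S.card) * (((A : ℝ) ^ (3 * (b : ℕ)))⁻¹ / A ^ 2) :=
          mul_le_mul_of_nonneg_right hc' (by positivity)
      _ = _ := by field_simp
  · calc _ ≤ (1 * (S.card : ℝ)) * (((A : ℝ) ^ (3 * (b : ℕ)))⁻¹ / A) :=
          mul_le_mul_of_nonneg_right hc' (by positivity)
      _ = _ := by field_simp

theorem seg_cast (τ : Fin m → Bool) (l : Fin m) : ((seg A τ l : ℕ) : ℝ) =
    (if τ l then (A : ℝ) ^ 2 else 1) * ((A : ℝ) ^ (3 * (l : ℕ)) * (A : ℝ) ^ (3 * (l : ℕ))) := by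
  have h6 : ((A : ℝ) ^ (6 * (l : ℕ))) = (A : ℝ) ^ (3 * (l : ℕ)) * (A : ℝ) ^ (3 * (l : ℕ)) := by
    rw [← pow_add]; congr 1; ring
  unfold seg
  rw [← h6]
  split_ifs
  · push_cast; ring
  · push_cast; ring

theorem coef_part (hA : 1 ≤ A) (τ : Fin m → Bool) (S : Finset (Fin d)) (l b : Fin m)
    (hS : S.card ≤ seg A τ l) :
    coef A τ l * part f e τ S b ≤ if b = l then 1 else (A : ℝ)⁻¹ := by
  have hA1 : (1 : ℝ) ≤ A := by exact_mod_cast hA
  have hA0 : (0 : ℝ) < A := by linarith
  have hcp := (coef_pos (A := A) hA τ l).le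
  have hpow : ∀ k : ℕ, (0 : ℝ) < (A : ℝ) ^ k := fun k => by positivity
  have hS' : (S.card : ℝ) ≤
      (if τ l then (A : ℝ) ^ 2 else 1) * ((A : ℝ) ^ (3 * (l : ℕ)) * (A : ℝ) ^ (3 * (l : ℕ))) := by
    rw [← seg_cast]
    exact_mod_cast hS
  rcases lt_trichotomy b l with hbl | hbl | hbl
  · rw [if_neg hbl.ne]
    calc coef A τ l * part f e τ S b
        ≤ coef A τ l * ((if τ b then 1 else (A : ℝ)) * (A : ℝ) ^ (3 * (b : ℕ))) :=
          mul_le_mul_of_nonneg_left (part_le_total f e hA τ S b) hcp
      _ ≤ (A / (A : ℝ) ^ (3 * (l : ℕ))) * (A * (A : ℝ) ^ (3 * (b : ℕ))) := by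
          apply mul_le_mul
          · unfold coef
            apply div_le_div_of_nonneg_right _ (hpow _).le
            split_ifs <;> linarith
          · apply mul_le_mul_of_nonneg_right _ (hpow _).le
            split_ifs <;> linarith
          · split_ifs <;> positivity
          · positivity
      _ ≤ (A : ℝ)⁻¹ := by
          have h1 : (A : ℝ) ^ (3 * (b : ℕ)) * A ^ 3 ≤ (A : ℝ) ^ (3 * (l : ℕ)) := by
            rw [← pow_add]
            apply pow_le_pow_right₀ hA1
            have : (b : ℕ) < l := hbl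
            omega
          have h2 : (A / (A : ℝ) ^ (3 * (l : ℕ))) * (A * (A : ℝ) ^ (3 * (b : ℕ))) =
              (A : ℝ)⁻¹ * (((A : ℝ) ^ (3 * (b : ℕ)) * A ^ 3) / (A : ℝ) ^ (3 * (l : ℕ))) := by
            field_simp
          rw [h2]
          apply mul_le_of_le_one_right (by positivity)
          rw [div_le_one (hpow _)]
          exact h1
  · subst hbl
    rw [if_pos rfl]
    cases hτ : τ b with
    | true =>
      have h1 := part_le_total f e hA τ S b
      rw [hτ] at h1
      have h2 : coef A τ b = 1 / (A : ℝ) ^ (3 * (b : ℕ)) := by simp [coef, hτ]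
      rw [h2]
      calc _ ≤ 1 / (A : ℝ) ^ (3 * (b : ℕ)) * (1 * (A : ℝ) ^ (3 * (b : ℕ))) := by
            apply mul_le_mul_of_nonneg_left _ (by positivity)
            simpa using h1
        _ = 1 := by field_simp
    | false =>
      have h1 := part_le_card f e hA τ S b
      rw [hτ] at h1
      have h2 : coef A τ b = A / (A : ℝ) ^ (3 * (b : ℕ)) := by simp [coef, hτ]
      rw [h2]
      have h3 : (S.card : ℝ) ≤ (A : ℝ) ^ (3 * (b : ℕ)) * (A : ℝ) ^ (3 * (b : ℕ)) := by
        simpa [hτ] using hS'
      calc _ ≤ A / (A : ℝ) ^ (3 * (b : ℕ)) *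
            (((A : ℝ) ^ (3 * (b : ℕ)) * (A : ℝ) ^ (3 * (b : ℕ))) *
              ((A : ℝ)⁻¹ * ((A : ℝ) ^ (3 * (b : ℕ)))⁻¹)) := by
            apply mul_le_mul_of_nonneg_left _ (by positivity)
            refine le_trans h1 ?_
            simp only [Bool.false_eq_true, if_false]
            exact mul_le_mul_of_nonneg_right h3 (by positivity)
        _ = 1 := by field_simp
  · rw [if_neg hbl.ne']
    calc coef A τ l * part f e τ S b
        ≤ coef A τ l * (S.card * ((if τ b then 1 else (A : ℝ)⁻¹) *
            ((A : ℝ) ^ (3 * (b : ℕ)))⁻¹)) :=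
          mul_le_mul_of_nonneg_left (part_le_card f e hA τ S b) hcp
      _ ≤ coef A τ l * (((if τ l then (A : ℝ) ^ 2 else 1) *
            ((A : ℝ) ^ (3 * (l : ℕ)) * (A : ℝ) ^ (3 * (l : ℕ)))) *
            (1 * ((A : ℝ) ^ (3 * (b : ℕ)))⁻¹)) := by
          apply mul_le_mul_of_nonneg_left _ hcp
          apply mul_le_mul hS'
          · apply mul_le_mul_of_nonneg_right _ (by positivity)
            split_ifs
            · exact le_refl _
            · exact inv_le_one_of_one_le₀ hA1
          · split_ifs <;> positivity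
          · split_ifs <;> positivity
      _ ≤ (A ^ 2 / (A : ℝ) ^ (3 * (l : ℕ))) *
            ((((A : ℝ) ^ (3 * (l : ℕ)) * (A : ℝ) ^ (3 * (l : ℕ)))) *
            (1 * ((A : ℝ) ^ (3 * (b : ℕ)))⁻¹)) := by
          rw [mul_assoc (if τ l then (A : ℝ) ^ 2 else 1), ← mul_assoc (coef A τ l)]
          apply mul_le_mul_of_nonneg_right _ (by positivity)
          unfold coef
          rw [div_mul_eq_mul_div]
          apply div_le_div_of_nonneg_right _ (hpow _).le
          split_ifs
          · linarith
          · nlinarith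
      _ ≤ (A : ℝ)⁻¹ := by
          have h1 : (A : ℝ) ^ (3 * (l : ℕ)) * A ^ 3 ≤ (A : ℝ) ^ (3 * (b : ℕ)) := by
            rw [← pow_add]
            apply pow_le_pow_right₀ hA1
            have : (l : ℕ) < b := hbl
            omega
          have h2 : (A ^ 2 / (A : ℝ) ^ (3 * (l : ℕ))) *
            ((((A : ℝ) ^ (3 * (l : ℕ)) * (A : ℝ) ^ (3 * (l : ℕ)))) *
            (1 * ((A : ℝ) ^ (3 * (b : ℕ)))⁻¹)) =
              (A : ℝ)⁻¹ * (((A : ℝ) ^ (3 * (l : ℕ)) * A ^ 3) / (A : ℝ) ^ (3 * (b : ℕ))) := by
            field_simp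
          rw [h2]
          apply mul_le_of_le_one_right (by positivity)
          rw [div_le_one (hpow _)]
          exact h1

/-- the schedule of `τ` is cheap for the weights of `τ` -/
theorem cheap (hA : 1 ≤ A) (hmA : m ≤ A) (τ : Fin m → Bool) :
    orderedNorm (comb (coef A τ) (seg A τ)) (load (ptime f e) (sched f e τ)) ≤ 2 * m := by
  classical
  have hA0 : (0 : ℝ) < A := by exact_mod_cast hA
  have hmA' : (m : ℝ) ≤ A := by exact_mod_cast hmA
  rw [orderedNorm_comb]
  calc ∑ l, coef A τ l * topk (load (ptime f e) (sched f e τ)) (seg A τ l)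
      ≤ ∑ l : Fin m, (2 : ℝ) := by
        apply sum_le_sum
        intro l _
        obtain ⟨S, hS, hSeq⟩ := topk_eq (load (ptime f e) (sched f e τ)) (seg A τ l)
        rw [hSeq, sum_parts, mul_sum]
        calc ∑ b, coef A τ l * part f e τ S b
            ≤ ∑ b : Fin m, ((if b = l then 1 else 0) + (A : ℝ)⁻¹) := by
              apply sum_le_sum
              intro b _
              refine le_trans (coef_part f e hA τ S l b hS) ?_
              split_ifs
              · have : (0 : ℝ) < (A : ℝ)⁻¹ := by positivity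
                linarith
              · linarith
          _ = 1 + m * (A : ℝ)⁻¹ := by
              rw [sum_add_distrib]
              simp
          _ ≤ 2 := by
              have : m * (A : ℝ)⁻¹ ≤ 1 := by
                rw [← div_eq_mul_inv, div_le_one hA0]
                exact hmA'
              linarith
    _ = 2 * m := by simp [mul_comm]

end Inst

/-- Main construction: with `d ≥ A ^ (6 m + 6)` machines, where `A > 4 α m`, there is an instance
all of whose `α`-approximate portfolios have at least `2 ^ m` elements. -/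
theorem main_instance (α : ℝ) (hα : 1 ≤ α) (m A d : ℕ) (hm : 0 < m) (hA : 4 * α * m < A)
    (hd : A ^ (6 * m + 6) ≤ d) :
    ∃ n : ℕ, 1 ≤ n ∧ ∃ p : Fin d → Fin n → ℝ, (∀ i j, 0 ≤ p i j) ∧
      ∀ X : Finset (Fin d → ℝ), IsPortfolio α p X → 2 ^ m ≤ X.card := by
  classical
  have hm' : (1 : ℝ) ≤ m := by exact_mod_cast hm
  have hA4 : (4 : ℝ) * m < A := by nlinarith
  have hmA : 4 * m < A := by exact_mod_cast hA4
  have hA1 : 1 ≤ A := by omega
  have hcard : Fintype.card (Mach A m) ≤ Fintype.card (Fin d) := by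
    simp only [Mach, Fintype.card_prod, Fintype.card_fin, Fintype.card_option]
    refine le_trans ?_ hd
    calc m * (A ^ (6 * m) * (A ^ 2 + 1)) ≤ A * (A ^ (6 * m) * (A ^ 3)) := by
          apply Nat.mul_le_mul (by omega)
          apply Nat.mul_le_mul_left
          have h2 : 2 ≤ A := by omega
          calc A ^ 2 + 1 ≤ A ^ 2 + A ^ 2 := by
                apply Nat.add_le_add_left
                exact Nat.succ_le_of_lt (by positivity)
            _ = A ^ 2 * 2 := by ring
            _ ≤ A ^ 2 * A := Nat.mul_le_mul_left _ h2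
            _ = A ^ 3 := by ring
      _ = A ^ (6 * m + 4) := by ring
      _ ≤ A ^ (6 * m + 6) := Nat.pow_le_pow_right hA1 (by omega)
  obtain ⟨f⟩ := Function.Embedding.nonempty_of_card_le hcard
  have e : Fin (Fintype.card (Job A m)) ≃ Job A m := (Fintype.equivFin (Job A m)).symm
  have hd0 : 0 < d := lt_of_lt_of_le (by positivity) hd
  refine ⟨Fintype.card (Job A m), ?_, ptime f e, ptime_nonneg f e, ?_⟩
  · simp only [Job, Fintype.card_prod, Fintype.card_fin]
    exact Nat.succ_le_of_lt (by positivity)
  · intro X hX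
    obtain ⟨hX1, hX2⟩ := hX
    have hw : ∀ τ : Fin m → Bool,
        IsOrderedWeight (comb (coef A τ) (seg A τ) : Fin d → ℝ) := fun τ =>
      isOrderedWeight_comb hd0 _ _ (coef_pos hA1 τ) (seg_pos hA1 τ) hm
    have hch : ∀ τ : Fin m → Bool, ∃ x ∈ X,
        orderedNorm (comb (coef A τ) (seg A τ)) x < A / 2 := by
      intro τ
      obtain ⟨x, hx, hx2⟩ := hX2 _ (hw τ)
      refine ⟨x, hx, ?_⟩
      have h1 := hx2 (sched f e τ)
      have h2 := cheap f e hA1 (by omega) τ
      have h3 : α * orderedNorm (comb (coef A τ) (seg A τ))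
          (load (ptime f e) (sched f e τ)) ≤ α * (2 * m) :=
        mul_le_mul_of_nonneg_left h2 (by linarith)
      linarith
    choose x hxX hxlt using hch
    have hinj : Function.Injective x := by
      intro τ τ' hττ
      obtain ⟨s, hs⟩ := hX1 _ (hxX τ)
      have h1 : sig f e s = τ := by
        by_contra hne
        have := expensive f e hA1 τ s hne
        rw [hs] at this
        linarith [hxlt τ]
      have h2 : sig f e s = τ' := by
        by_contra hne
        have := expensive f e hA1 τ' s hne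
        rw [hs, hττ] at this
        linarith [hxlt τ']
      rw [← h1, h2]
    calc 2 ^ m = (univ : Finset (Fin m → Bool)).card := by simp
      _ = ((univ : Finset (Fin m → Bool)).image x).card := (card_image_of_injective _ hinj).symm
      _ ≤ X.card := by
        apply card_le_card
        intro y hy
        obtain ⟨τ, _, rfl⟩ := mem_image.mp hy
        exact hxX τ

theorem eventually_large (c : ℝ) : ∀ᶠ t : ℝ in atTop, c * t ≤ Real.exp t := by
  have h := Real.tendsto_exp_div_pow_atTop 1
  filter_upwards [h.eventually_ge_atTop c, eventually_gt_atTop 0] with t h1 h2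
  rw [pow_one, le_div_iff₀ h2] at h1
  exact h1

theorem eventually_large2 (c : ℝ) : ∀ᶠ t : ℝ in atTop, c * t ^ 2 ≤ Real.exp t := by
  have h := Real.tendsto_exp_div_pow_atTop 2
  filter_upwards [h.eventually_ge_atTop c, eventually_gt_atTop 0] with t h1 h2
  rw [le_div_iff₀ (by positivity)] at h1
  exact h1

theorem tendsto_loglog : Tendsto (fun d : ℕ => Real.log (Real.log d)) atTop atTop :=
  Real.tendsto_log_atTop.comp (Real.tendsto_log_atTop.comp tendsto_natCast_atTop_atTop)

theorem lower_bound (α : ℝ) (hα : 1 ≤ α) : ∀ᶠ d : ℕ in atTop,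
    ∃ n : ℕ, 1 ≤ n ∧ ∃ p : Fin d → Fin n → ℝ, (∀ i j, 0 ≤ p i j) ∧
      ∀ X : Finset (Fin d → ℝ), IsPortfolio α p X →
        Real.exp (Real.log d / (11 * Real.log (Real.log d))) ≤ X.card := by
  filter_upwards [tendsto_loglog.eventually (eventually_large 100),
    tendsto_loglog.eventually_ge_atTop α, eventually_ge_atTop 3] with d h100 hLL hd3
  set t := Real.log (Real.log d) with ht
  have hd3' : (3 : ℝ) ≤ d := by exact_mod_cast hd3
  have hd0 : (0 : ℝ) < d := by linarith
  have hLpos : 0 < Real.log d := Real.log_pos (by linarith)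
  have hexp : Real.exp t = Real.log d := Real.exp_log hLpos
  rw [hexp] at h100
  set L := Real.log d with hL
  have ht1 : 1 ≤ t := le_trans hα hLL
  have ht0 : 0 < t := by linarith
  set m : ℕ := ⌊L / (7 * t)⌋₊ with hm
  have hq : 0 ≤ L / (7 * t) := by positivity
  have hm1 : (m : ℝ) ≤ L / (7 * t) := Nat.floor_le hq
  have hm2 : L / (7 * t) < m + 1 := Nat.lt_floor_add_one _
  have hLt : 100 ≤ L / t := by rw [le_div_iff₀ ht0]; exact h100
  have h7 : L / (7 * t) = (L / t) / 7 := by field_simp
  have hmpos : 0 < m := by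
    have : (0 : ℝ) < m := by rw [h7] at hm2; linarith
    exact_mod_cast this
  set A : ℕ := ⌊4 * α * m⌋₊ + 1 with hA
  have hA1 : 4 * α * m < A := by
    rw [hA]; push_cast
    exact Nat.lt_floor_add_one _
  have hA2 : (A : ℝ) ≤ L := by
    have h1 : (A : ℝ) ≤ 4 * α * m + 1 := by
      rw [hA]; push_cast
      have := Nat.floor_le (show 0 ≤ 4 * α * (m : ℝ) by positivity)
      linarith
    have h2 : 4 * α * m ≤ 4 * t * (L / (7 * t)) := by
      apply mul_le_mul _ hm1 (by positivity) (by positivity)
      linarith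
    have h3 : 4 * t * (L / (7 * t)) = 4 * L / 7 := by field_simp
    have h4 : 100 ≤ L := by nlinarith
    linarith
  have hApos : (0 : ℝ) < A := by
    have : (0 : ℝ) ≤ 4 * α * m := by positivity
    linarith
  have hAd : A ^ (6 * m + 6) ≤ d := by
    have h1 : Real.log A ≤ t := by
      rw [ht]
      exact Real.log_le_log hApos hA2
    have h2 : Real.log ((A : ℝ) ^ (6 * m + 6)) ≤ Real.log d := by
      rw [Real.log_pow]
      push_cast
      calc (6 * (m : ℝ) + 6) * Real.log A ≤ (6 * (m : ℝ) + 6) * t :=
            mul_le_mul_of_nonneg_left h1 (by positivity)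
        _ ≤ (6 * (L / (7 * t)) + 6) * t := by
            apply mul_le_mul_of_nonneg_right _ ht0.le
            linarith
        _ = 6 * L / 7 + 6 * t := by field_simp
        _ ≤ L := by linarith
    have h3 : ((A : ℝ) ^ (6 * m + 6)) ≤ d :=
      (Real.log_le_log_iff (by positivity) hd0).mp h2
    exact_mod_cast h3
  obtain ⟨n, hn, p, hp, hX⟩ := main_instance α hα m A d hmpos hA1 hAd
  refine ⟨n, hn, p, hp, fun X hXp => ?_⟩
  have h1 : ((2 : ℝ) ^ m) ≤ X.card := by exact_mod_cast hX X hXp
  refine le_trans ?_ h1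
  have h2 : ((2 : ℝ) ^ m) = Real.exp (m * Real.log 2) := by
    rw [mul_comm, Real.exp_mul, Real.exp_log (by norm_num), Real.rpow_natCast]
  rw [h2]
  apply Real.exp_le_exp.mpr
  have hlog2 : 0.6931 < Real.log 2 := lt_trans (by norm_num) Real.log_two_gt_d9
  have h3 : L / (11 * t) = (L / t) / 11 := by field_simp
  rw [h3]
  have h4 : (L / t) / 7 - 1 ≤ m := by rw [h7] at hm2; linarith
  calc (L / t) / 11 ≤ ((L / t) / 7 - 1) * 0.6931 := by linarith
    _ ≤ m * Real.log 2 := by
      apply mul_le_mul h4 hlog2.le (by norm_num) (by positivity)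

/-- There are no constants `α ≥ 1` and `C > 0` such that every instance of scheduling on `d ≥ 2`
unrelated machines has an `α`-approximate portfolio for the ordered norms of size at most
`C log d`. Quantitatively, for every `α ≥ 1` and every sufficiently large `d` there is an instance
with `d` machines in which every `α`-approximate portfolio for the ordered norms has at least
`exp (log d / (11 log log d))` elements. -/
theorem result :
    (¬ ∃ α : ℝ, 1 ≤ α ∧ ∃ C : ℝ, 0 < C ∧
      ∀ d : ℕ, 2 ≤ d → ∀ n : ℕ, 1 ≤ n → ∀ p : Fin d → Fin n → ℝ, (∀ i j, 0 ≤ p i j) →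
        ∃ X : Finset (Fin d → ℝ), IsPortfolio α p X ∧ (X.card : ℝ) ≤ C * Real.log d) ∧
    (∀ α : ℝ, 1 ≤ α → ∀ᶠ d : ℕ in atTop,
      ∃ n : ℕ, 1 ≤ n ∧ ∃ p : Fin d → Fin n → ℝ, (∀ i j, 0 ≤ p i j) ∧
        ∀ X : Finset (Fin d → ℝ), IsPortfolio α p X →
          Real.exp (Real.log d / (11 * Real.log (Real.log d))) ≤ X.card) := by
  refine ⟨?_, lower_bound⟩
  rintro ⟨α, hα, C, hC, h⟩
  have hev : ∀ᶠ d : ℕ in atTop, C * Real.log d <
      Real.exp (Real.log d / (11 * Real.log (Real.log d))) := by
    filter_upwards [tendsto_loglog.eventually (eventually_large2 22),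
      tendsto_loglog.eventually_gt_atTop (max 1 (Real.log C)), eventually_ge_atTop 3]
      with d h22 hLL hd3
    have hd3' : (3 : ℝ) ≤ d := by exact_mod_cast hd3
    have hLpos : 0 < Real.log d := Real.log_pos (by linarith)
    have hexp : Real.exp (Real.log (Real.log d)) = Real.log d := Real.exp_log hLpos
    rw [hexp] at h22
    have ht1 : 1 < Real.log (Real.log d) := lt_of_le_of_lt (le_max_left _ _) hLL
    have htC : Real.log C < Real.log (Real.log d) := lt_of_le_of_lt (le_max_right _ _) hLL
    have h1 : C * Real.log d = Real.exp (Real.log C + Real.log (Real.log d)) := by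
      rw [Real.exp_add, Real.exp_log hC, hexp]
    rw [h1]
    apply Real.exp_lt_exp.mpr
    have h2 : 2 * Real.log (Real.log d) ≤ Real.log d / (11 * Real.log (Real.log d)) := by
      rw [le_div_iff₀ (by linarith)]
      nlinarith
    linarith
  obtain ⟨d, ⟨hd1, hd2⟩, hd3⟩ := ((lower_bound α hα).and hev).and (eventually_ge_atTop 2) |>.exists
  obtain ⟨n, hn, p, hp, hX⟩ := hd1
  obtain ⟨X, hXp, hXc⟩ := h d hd3 n hn p hp
  have := hX X hXp
  linarith

end Pool.Agent.Results.MP_61ce55_lc.NoLogPortfolio
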